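import Pool.Agent.MP_6a4325_al.H62.Spec

/-!
Row EXT: extensions and elementary amenable groups.
-/

set_option autoImplicit false

namespace Pool.Agent.MP_6a4325_al.H3

open Pool.Agent.MP_6a4325_al.H62 Function

/-- `Q` is a section of `G` -/
def Sec (G Q : Type) [Group G] [Group Q] : Prop :=
  ∃ (H : Type) (_ : Group H) (i : H →* G) (f : H →* Q), Injective i ∧ Surjective f

section Sections

variable {G Q R : Type} [Group G] [Group Q] [Group R]

theorem Sec.of_inj (i : Q →* G) (hi : Injective i) : Sec G Q :=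
  ⟨Q, inferInstance, i, MonoidHom.id Q, hi, surjective_id⟩

theorem Sec.of_surj (f : G →* Q) (hf : Surjective f) : Sec G Q :=
  ⟨G, inferInstance, MonoidHom.id G, f, injective_id, hf⟩

theorem Sec.trans (h : Sec G Q) (h' : Sec Q R) : Sec G R := by
  obtain ⟨H, _, i, f, hi, hf⟩ := h
  obtain ⟨H', _, i', f', hi', hf'⟩ := h'
  let P : Subgroup (H × H') := (f.comp (MonoidHom.fst H H')).eqLocus (i'.comp (MonoidHom.snd H H'))
  refine ⟨P, inferInstance, i.comp ((MonoidHom.fst H H').comp P.subtype),
    f'.comp ((MonoidHom.snd H H').comp P.subtype), ?_, fun r => ?_⟩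
  · rintro ⟨⟨a, a'⟩, ha⟩ ⟨⟨b, b'⟩, hb⟩ hab
    have h1 : a = b := hi hab
    have h2 : f a = i' a' := ha
    have h3 : f b = i' b' := hb
    have h4 : a' = b' := hi' (by rw [← h2, ← h3, h1])
    subst h1 h4
    rfl
  · obtain ⟨a', rfl⟩ := hf' r
    obtain ⟨a, ha⟩ := hf (i' a')
    exact ⟨⟨(a, a'), ha⟩, rfl⟩

theorem hw_sec (hG : HW G) (h : Sec G Q) : HW Q := by
  intro H' Q' _ f' hf'
  obtain ⟨H, _, i, f, hi, hf⟩ := h.trans ⟨H', inferInstance, H'.subtype, f', H'.subtype_injective, hf'⟩
  exact hG i.range Q' (f.comp (MonoidHom.ofInjective hi).symm.toMonoidHom)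
    (hf.comp (MonoidHom.ofInjective hi).symm.surjective)

theorem hw_w1 (hG : HW G) : W1 G :=
  (hG ⊤ G (⊤ : Subgroup G).subtype fun g => ⟨⟨g, trivial⟩, rfl⟩).2.1

theorem finiteIndex_comap (A : Subgroup G) [A.FiniteIndex] (i : Q →* G) :
    (A.comap i).FiniteIndex :=
  ⟨by rw [Subgroup.index_comap]; exact (Subgroup.instFiniteIndex_subgroupOf A i.range).1⟩

theorem va_inj (i : Q →* G) (hi : Injective i) (h : VA G) : VA Q := by
  obtain ⟨A, hn, hf, hc⟩ := h
  exact ⟨A.comap i, hn.comap i, finiteIndex_comap A i, fun a ha b hb =>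
    hi (by rw [map_mul, map_mul, hc _ ha _ hb])⟩

theorem sec_map {H : Type} [Group H] (i : H →* G) (hi : Injective i) (f : H →* Q)
    (S : Subgroup G) : Sec S ((S.comap i).map f) :=
  ⟨S.comap i, inferInstance, i.subgroupComap S, f.subgroupMap _,
    fun _ _ h => Subtype.ext (hi (congrArg Subtype.val h)), f.subgroupMap_surjective _⟩

end Sections

section Ranks

variable {A B : Type} [Group A] [Group B]

/-- restriction of real characters along a homomorphism -/
def cmp (f : A →* B) : (Additive B →+ ℝ) →ₗ[ℝ] (Additive A →+ ℝ) where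
  toFun χ := χ.comp (MonoidHom.toAdditive f)
  map_add' _ _ := rfl
  map_smul' _ _ := rfl

theorem cmp_apply (f : A →* B) (χ : Additive B →+ ℝ) (a : A) :
    cmp f χ (Additive.ofMul a) = χ (Additive.ofMul (f a)) := rfl

theorem cmp_inj (f : A →* B) [f.range.FiniteIndex] : Injective (cmp f) := by
  rw [injective_iff_map_eq_zero]
  intro χ h
  ext b
  obtain ⟨n, hn, -, a, ha⟩ :=
    Subgroup.exists_pow_mem_of_index_ne_zero (H := f.range) Subgroup.FiniteIndex.index_ne_zero b
  have h1 := cmp_apply f χ a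
  rw [h, ha, ofMul_pow, map_nsmul] at h1
  have h2 : (n : ℝ) * χ (Additive.ofMul b) = 0 := by simpa using h1.symm
  exact (mul_eq_zero.1 h2).resolve_left (by exact_mod_cast hn.ne')

theorem cmp_inj_of_surj (f : A →* B) (hf : Surjective f) : Injective (cmp f) := by
  have : f.range.FiniteIndex := by rw [MonoidHom.range_eq_top.2 hf]; infer_instance
  exact cmp_inj f

theorem cmp_surj (f : A →* B) (hf : Injective f) (hc : ∀ a b : B, a * b = b * a) :
    Surjective (cmp f) := by
  intro χ
  let _ : CommGroup B := { (inferInstance : Group B) with mul_comm := hc }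
  let _ : CommGroup A := { (inferInstance : Group A) with
    mul_comm := fun a b => hf (by rw [map_mul, map_mul, hc]) }
  obtain ⟨g, hg⟩ := (Module.Baer.of_divisible ℝ).extension_property_addMonoidHom
    (MonoidHom.toAdditive f) hf χ
  exact ⟨g, hg⟩

theorem rank_ext (φ : A →* B) : Module.rank ℝ (Additive A →+ ℝ) ≤
    Module.rank ℝ (Additive φ.ker →+ ℝ) + Module.rank ℝ (Additive φ.range →+ ℝ) := by
  rw [← LinearMap.rank_range_add_rank_ker (cmp φ.ker.subtype)]
  refine add_le_add (Submodule.rank_le _) (le_trans (Submodule.rank_mono ?_)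
    (rank_range_le (cmp φ.rangeRestrict)))
  intro χ hχ
  let χ' : A →* Multiplicative ℝ := MonoidHom.toAdditiveLeft.symm χ
  have hk : φ.rangeRestrict.ker ≤ χ'.ker := by
    intro a ha
    rw [MonoidHom.ker_rangeRestrict] at ha
    exact congrArg (fun ψ : Additive φ.ker →+ ℝ => ψ (Additive.ofMul ⟨a, ha⟩)) hχ
  let ψ := φ.rangeRestrict.liftOfRightInverse _
    (rightInverse_surjInv φ.rangeRestrict_surjective) ⟨χ', hk⟩
  refine ⟨MonoidHom.toAdditiveLeft ψ, ?_⟩
  ext a
  exact congrArg Multiplicative.toAdd (φ.rangeRestrict.liftOfRightInverse_comp_apply _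
    (rightInverse_surjInv φ.rangeRestrict_surjective) ⟨χ', hk⟩ a)

theorem rank_bound (Γ : Type) [Group Γ] (h : VA Γ)
    (hf : ∀ S : Subgroup Γ, Module.Finite ℝ (Additive S →+ ℝ)) :
    ∃ r : ℕ, ∀ (B : Type) [Group B] (i : B →* Γ), Injective i →
      Module.rank ℝ (Additive B →+ ℝ) ≤ r := by
  obtain ⟨S, -, hfi, hc⟩ := h
  have := hf S
  refine ⟨Module.finrank ℝ (Additive S →+ ℝ), fun B _ i hi => ?_⟩
  have : (S.comap i).subtype.range.FiniteIndex := by
    rw [Subgroup.range_subtype]; exact finiteIndex_comap S i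
  rw [Module.finrank_eq_rank]
  refine le_trans (LinearMap.rank_le_of_injective _ (cmp_inj (S.comap i).subtype))
    (LinearMap.rank_le_of_surjective _ (cmp_surj (i.subgroupComap S) ?_ ?_))
  · exact fun _ _ h => Subtype.ext (hi (congrArg Subtype.val h))
  · exact fun a b => Subtype.ext (hc _ a.2 _ b.2)

end Ranks

/-- row EXT, extensions -/
theorem ext : SF1 → SM2 → SLoc → SExt := by
  intro f1 m2 loc G _ N _ hG hN hQ
  refine loc G hG fun T => ?_
  set H := Subgroup.closure (T : Set G)
  have hH : HW H := hw_sec hG (Sec.of_inj _ H.subtype_injective)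
  refine m2 H inferInstance hH ?_
  let φ : H →* G ⧸ N := (QuotientGroup.mk' N).comp H.subtype
  obtain ⟨r₁, h₁⟩ := rank_bound φ.range (va_inj _ φ.range.subtype_injective hQ)
    (f1 _ inferInstance (hw_w1 (hw_sec hH (Sec.of_surj _ φ.rangeRestrict_surjective))))
  have hk : VA φ.ker := by
    refine va_inj ((H.subtype.comp φ.ker.subtype).codRestrict N fun x => ?_) ?_ hN
    · exact (QuotientGroup.eq_one_iff _).1 x.2
    · intro _ _ h
      have h' := congrArg Subtype.val h
      exact Subtype.ext (Subtype.ext h')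
  obtain ⟨r₂, h₂⟩ := rank_bound φ.ker hk fun S => by
    have := f1 H inferInstance (hw_w1 hH) (S.map φ.ker.subtype)
    exact Module.Finite.of_injective _ (cmp_inj_of_surj
      (S.equivMapOfInjective _ φ.ker.subtype_injective).symm.toMonoidHom
      (S.equivMapOfInjective _ φ.ker.subtype_injective).symm.surjective)
  refine ⟨r₂ + r₁, fun K _ => le_trans (rank_ext (φ.comp K.subtype)) ?_⟩
  push_cast
  refine add_le_add (h₂ _ ((K.subtype.comp (φ.comp K.subtype).ker.subtype).codRestrict φ.ker
    fun x => x.2) ?_) (h₁ _ (Subgroup.inclusion ?_) (Subgroup.inclusion_injective _))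
  · intro _ _ h
    have h' := congrArg Subtype.val h
    exact Subtype.ext (Subtype.ext h')
  · rintro _ ⟨x, rfl⟩
    exact ⟨x, rfl⟩

/-- row EXT, elementary amenable groups -/
theorem ea : SExt → SLoc → SEA := by
  intro ext loc G _ h
  suffices key : ∀ (Q : Type) [Group Q], Sec G Q → HW Q → VA Q from
    key G (Sec.of_inj (MonoidHom.id G) injective_id)
  induction h with
  | finite G hG =>
    rintro Q _ ⟨H, _, i, f, hi, hf⟩ -
    have := Finite.of_injective _ hi
    have := Finite.of_surjective _ hf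
    exact ⟨⊥, inferInstance, inferInstance, fun a ha b _ => by simp [Subgroup.mem_bot.1 ha]⟩
  | abelian G hG =>
    rintro Q _ ⟨H, _, i, f, hi, hf⟩ -
    refine ⟨⊤, inferInstance, inferInstance, fun a _ b _ => ?_⟩
    obtain ⟨a, rfl⟩ := hf a
    obtain ⟨b, rfl⟩ := hf b
    rw [← map_mul, ← map_mul, hi (show i (a * b) = i (b * a) by rw [map_mul, map_mul, hG])]
  | sub G H f hf _ ih => exact fun Q _ hs => ih Q ((Sec.of_inj f hf).trans hs)
  | quot G R f hf _ ih => exact fun Q _ hs => ih Q ((Sec.of_surj f hf).trans hs)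
  | ext G N _ _ ih₁ ih₂ =>
    rintro Q _ ⟨H, _, i, f, hi, hf⟩ hQ
    have : ((N.comap i).map f).Normal := Subgroup.Normal.map inferInstance f hf
    refine ext Q ((N.comap i).map f) hQ
      (ih₁ _ (sec_map i hi f N) (hw_sec hQ (Sec.of_inj _ (Subgroup.subtype_injective _))))
      (ih₂ _ ⟨H ⧸ N.comap i, inferInstance, QuotientGroup.map _ N i le_rfl,
        QuotientGroup.map _ _ f (Subgroup.le_comap_map _ _), ?_, ?_⟩
        (hw_sec hQ (Sec.of_surj _ (QuotientGroup.mk'_surjective _))))
    · rw [← MonoidHom.ker_eq_bot_iff, QuotientGroup.ker_map, QuotientGroup.map_mk'_self]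
    · exact QuotientGroup.map_surjective_of_surjective _ _ _
        ((QuotientGroup.mk'_surjective _).comp hf) _
  | union G ι S hd hc _ ih =>
    rintro Q _ ⟨H, _, i, f, hi, hf⟩ hQ
    refine loc Q hQ fun T => ?_
    classical
    choose g hg using hf
    choose k hk using hc
    have : Nonempty ι := ⟨k 1⟩
    obtain ⟨z, hz⟩ := hd.finset_le (T.image fun t => k (i (g t)))
    have hle : Subgroup.closure (T : Set Q) ≤ ((S z).comap i).map f := by
      rw [Subgroup.closure_le]
      intro t ht
      exact ⟨g t, hz _ (Finset.mem_image_of_mem _ ht) (hk _), hg t⟩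
    exact ih z _ ((sec_map i hi f (S z)).trans (Sec.of_inj _ (Subgroup.inclusion_injective hle)))
      (hw_sec hQ (Sec.of_inj _ (Subgroup.subtype_injective _)))

end Pool.Agent.MP_6a4325_al.H3
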