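import Pool.Agent.MP_6a4325_al.H62.Base2

/-!
The structure theorem for soluble groups with the property `W`, by induction on the derived length.
-/

set_option autoImplicit false

namespace Pool.Agent.MP_6a4325_al.H3

open Pool.Agent.MP_6a4325_al.H62 Subgroup

namespace Ind

variable {G H : Type} [Group G] [Group H] {d : ℕ}

theorem ri_comap {B : Subgroup G} (h : B.relIndex (derivedSeries G d) ≠ 0) (f : H →* G) :
    (B.comap f).relIndex (derivedSeries H d) ≠ 0 := by
  rw [relIndex_comap]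
  exact fun e => h (relIndex_eq_zero_of_le_right (map_derivedSeries_le_derivedSeries f d) e)

theorem ri_map {B : Subgroup G} (h : B.relIndex (derivedSeries G d) ≠ 0) (f : G →* H)
    (hf : Function.Surjective f) : (B.map f).relIndex (derivedSeries H d) ≠ 0 := by
  rw [← map_derivedSeries_eq hf, ← relIndex_comap]
  exact fun e => h (relIndex_eq_zero_of_le_left (le_comap_map f B) e)

theorem ri_bot (K : Subgroup G) : (⊥ : Subgroup G).relIndex K ≠ 0 ↔ Finite K := by
  rw [relIndex_bot_left]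
  exact ⟨Nat.finite_of_card_ne_zero, fun _ => Nat.card_pos.ne'⟩

variable {p : ℕ} [Fact p.Prime] {lva : Prop}

/-- the statement that is proved by induction -/
def P (p : ℕ) [Fact p.Prime] (lva : Prop) (d : ℕ) : Prop :=
  ∀ (G : Type) [Group G], Hyp p lva G → Finite (derivedSeries G d) → CB p lva G

theorem ihy (ih : P p lva d) (h : Hyp p lva G) {B : Subgroup G}
    (hB : B.relIndex (derivedSeries G d) ≠ 0) : IHy p lva B := by
  intro K Q _ f hf hk
  refine ih Q ((h.sub K).of_surj f hf) ((ri_bot _).1 fun e => ?_)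
  refine ri_map (ri_comap hB K.subtype) f hf (relIndex_eq_zero_of_le_left ?_ e)
  rintro _ ⟨x, hx, rfl⟩
  exact hk x hx

theorem last (hO : SOp) (hC : SCent) (hK : SCore) (hR : SRel) (ih : P p lva d) (h : Hyp p lva G)
    (A S Z : Subgroup G) [A.Normal] [hS : S.Normal] (hA : Cm A A) (h1 : A ≤ S) (h2 : S ≤ Z)
    (h3 : ∀ x ∈ S, ∃ j : ℕ, x ^ p ^ j ∈ A) (h4 : ∀ z ∈ Z, ∀ g : G, z * g * z⁻¹ * g⁻¹ ∈ S)
    (h5 : Rel p lva Z ⊤) (h6 : Rel p lva (centralizer (A : Set G)) ⊤)
    (h7 : A.relIndex (derivedSeries G d) ≠ 0) : CB p lva G := by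
  have R := hR p lva
  have hZ : Z.Normal := ⟨fun z hz g => by
    simpa [mul_assoc] using Z.mul_mem (Z.inv_mem (h2 (h4 z hz g))) hz⟩
  let C := Z ⊓ centralizer (A : Set G)
  have hCn : C.Normal := inferInstance
  have hC1 : (C ⊓ S).Normal := inferInstance
  have h8 : A ≤ C ⊓ S := fun a ha => ⟨⟨h2 (h1 ha), fun b hb => hA b hb a ha⟩, h1 ha⟩
  have h9 : Rel p lva C ⊤ := R.trans _ _ _ _ (by simpa using R.inf _ _ _ (centralizer A) h5) h6
  obtain ⟨T, _, hT, hN⟩ := hO p G
  let π := QuotientGroup.mk' T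
  have hπ : Function.Surjective π := QuotientGroup.mk'_surjective T
  have h' := h.quot T
  refine R.cbQuot _ _ π hπ (by rwa [QuotientGroup.ker_mk']) ?_
  have c1 : Cm ((C ⊓ S).map π) (C.map π) := hC p _ h'.1 hN (A.map π) _ _ (Normal.map ‹_› π hπ)
    (hC1.map π hπ) (hCn.map π hπ) (map_mono h8) (map_mono inf_le_left)
    (by rintro _ ⟨a, ha, rfl⟩ _ ⟨c, hc, rfl⟩; rw [← map_mul, ← map_mul, hc.2 a ha])
    (by rintro _ ⟨x, hx, rfl⟩; exact (h3 x hx.2).imp fun j hj => ⟨_, hj, map_pow π _ _⟩)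
  obtain ⟨N, Y, n1, n2, n3, n4⟩ := hK p lva _ h' hN _ _ (hC1.map π hπ) (hCn.map π hπ)
    (map_mono inf_le_left) c1 (by
      rintro _ ⟨c, hc, rfl⟩ g
      obtain ⟨g, rfl⟩ := hπ g
      refine ⟨c * g * c⁻¹ * g⁻¹, ⟨?_, h4 c hc.1 g⟩, by simp only [map_mul, map_inv]⟩
      simpa [mul_assoc] using C.mul_mem hc (hCn.conj_mem _ (C.inv_mem hc) g))
    ((ihy ih h' (ri_map h7 π hπ)).mono (map_mono h8))
  refine ⟨N, ⊥, Y, n1, bot_le, n2.trans inf_le_right, nz_of_normal _ _, IsPGroup.of_bot,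
    fun z hz g hg => by rw [n3 z hz g hg]; simp, R.trans _ _ _ _ n4 ?_⟩
  have := R.inf _ _ _ N (R.map _ _ π _ _ h9)
  rwa [map_top_of_surjective π hπ, top_inf_eq] at this

theorem centre (h : VA G) (hf : Finite (commutatorSet G)) : (center G).FiniteIndex := by
  obtain ⟨A, -, hA, hc⟩ := h
  have h1 : ∀ g : G, (centralizer {g}).FiniteIndex := fun g =>
    haveI := Finite.of_injective _ (quotientCentralizerEmbedding g).injective
    finiteIndex_of_finite_quotient
  have h2 := finiteIndex_iInf fun q : G ⧸ A => h1 q.out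
  refine finiteIndex_of_le (H := A ⊓ ⨅ q : G ⧸ A, centralizer {q.out}) fun z hz => ?_
  refine mem_center_iff.2 fun g => ?_
  obtain ⟨a, ha⟩ := QuotientGroup.mk_out_eq_mul A g
  have e1 := (mem_iInf.1 hz.2 (g : G ⧸ A)) _ rfl
  rw [ha, mul_assoc, hc a a.2 z hz.1, ← mul_assoc, ← mul_assoc] at e1
  exact mul_right_cancel e1

theorem main (hL : SAL) (hN : SNil2) (hO : SOp) (hC : SCent) (hK : SCore) (hR : SRel)
    (ih : P p lva d) (h : Hyp p lva G) (hp : NoP p G) (hf : Finite (derivedSeries G (d + 1)))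
    (hc : Cm (derivedSeries G (d + 1)) ⊤) : CB p lva G := by
  have R := hR p lva
  let A := derivedSeries G d
  have hm : ∀ x y : A, (x * y * x⁻¹ * y⁻¹ : G) ∈ derivedSeries G (d + 1) := fun x y =>
    commutator_mem_commutator x.2 y.2
  have hF := hp.noPT (derivedSeries_normal G (d + 1)) fun a ha b _ => hc a ha b trivial
  have h1 : VA A := hN p A (h.2.1.sub A) (fun x y z => Subtype.ext (hc _ (hm x y) z trivial))
    (Nat.card (derivedSeries G (d + 1))) Nat.card_pos
    ((Nat.Prime.coprime_iff_not_dvd Fact.out).2 fun e => by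
      obtain ⟨x, hx⟩ := exists_prime_orderOf_dvd_card' p e
      have h2 : x = 1 := Subtype.ext (hF x x.2 (congrArg Subtype.val (hx ▸ pow_orderOf_eq_one x)))
      rw [h2, orderOf_one] at hx
      exact (Fact.out : p.Prime).ne_one hx.symm).symm
    fun x y => Subtype.ext (congrArg Subtype.val (pow_card_eq_one' (x := (⟨_, hm x y⟩ :
      derivedSeries G (d + 1)))) :)
  have h2 := centre h1 (Finite.of_injective (β := derivedSeries G (d + 1))
    (fun c => ⟨(c : A), by obtain ⟨_, x, y, rfl⟩ := c; exact hm x y⟩)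
    fun a b e => Subtype.ext (Subtype.ext (congrArg Subtype.val e :)))
  let B := A ⊓ centralizer (A : Set G)
  have hB : B.relIndex A ≠ 0 := (finiteIndex_of_le (H := center A) (K := B.subgroupOf A)
    fun z hz => ⟨z.2, fun a ha => congrArg Subtype.val (mem_center_iff.1 hz ⟨a, ha⟩)⟩).index_ne_zero
  have hBc : Cm B B := fun a ha b hb => hb.2 a ha.1
  obtain ⟨N, B₀, n1, n2, n3, n4, n5, -, n6⟩ := hL p lva G B h inferInstance hBc
    (hp.noPT inferInstance hBc) (ihy ih h hB)
  have h3 : B₀.relIndex A ≠ 0 := relIndex_ne_zero_trans n4 hB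
  have := n5.normal_subgroupOf
  let π := QuotientGroup.mk' (B₀.subgroupOf N)
  have hπ : ∀ x : N, π x = 1 ↔ (x : G) ∈ B₀ := fun x => QuotientGroup.eq_one_iff x
  obtain ⟨N', S, Z, m1, m2, -, m4, m5, m6, m7⟩ := ihy ih h h3 N _ π
    (QuotientGroup.mk'_surjective _) fun x hx => (hπ x).2 hx
  refine R.cbFin _ N n1 (R.cbFin _ (N'.comap π) (finiteIndex_comap _ m1 π) ?_)
  let φ := N.subtype.comp (N'.comap π).subtype
  let ψ := π.comp (N'.comap π).subtype
  have : (B₀.comap φ).Normal := ⟨fun b hb g => n5 _ g.1.2 _ hb⟩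
  have : (S.comap ψ).Normal := ⟨fun b hb g => by
    rw [mem_comap, map_mul, map_mul, map_inv]; exact m4 _ g.2 _ hb⟩
  refine last hO hC hK hR ih ((h.sub _).sub _) (B₀.comap φ) (S.comap ψ) (Z.comap ψ)
    (fun a ha b hb => Subtype.ext (Subtype.ext (hBc _ (n2 ha) _ (n2 hb))))
    (fun a ha => by rw [mem_comap, show ψ a = 1 from (hπ _).2 ha]; exact S.one_mem)
    (comap_mono m2) (fun x hx => ?_) (fun z hz g => ?_) ?_ ?_ (ri_comap h3 φ)
  · obtain ⟨j, hj⟩ := m5 ⟨ψ x, hx⟩
    exact ⟨j, (hπ _).1 ((map_pow ψ x _).trans (congrArg Subtype.val hj))⟩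
  · rw [mem_comap, map_mul, map_mul, map_mul, map_inv, map_inv]
    exact m6 _ hz _ g.2
  · have := R.comap _ _ ψ _ _ m7
    rwa [show N'.comap ψ = ⊤ from eq_top_iff.2 fun x _ => x.2] at this
  · have := R.comap _ _ φ _ _ n6
    rw [show N.comap φ = ⊤ from eq_top_iff.2 fun x _ => x.1.2] at this
    refine R.up _ _ _ _ ?_ le_top (nz_of_normal _ _) this
    exact fun x hx a ha => Subtype.ext (Subtype.ext (hx.2 _ ha))

end Ind

theorem ind : SAL → SNil2 → SOp → SCent → SCore → SRel → SInd := by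
  intro hL hN hO hC hK hR p _ lva
  have R := hR p lva
  have key : ∀ d, Ind.P p lva d := fun d => by
    induction d with
    | zero =>
      intro G _ _ hf
      have : Finite G := Finite.of_equiv _ (topEquiv (G := G)).toEquiv (h := hf)
      exact ⟨⊥, ⊥, ⊥, inferInstance, le_rfl, le_rfl, nz_of_normal _ _, IsPGroup.of_bot,
        fun z hz g _ => by rw [mem_bot.1 hz]; simp, R.refl _ _⟩
    | succ d ih =>
      intro G _ h hf
      let K := (MulAut.conjNormal (H := derivedSeries G (d + 1))).ker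
      refine R.cbFin _ K inferInstance ?_
      obtain ⟨T, _, hT, hp⟩ := hO p K
      let π := QuotientGroup.mk' T
      have hπ : Function.Surjective π := QuotientGroup.mk'_surjective T
      refine R.cbQuot _ _ π hπ (by rwa [QuotientGroup.ker_mk'])
        (Ind.main hL hN hO hC hK hR ih ((h.sub K).quot T) hp ((Ind.ri_bot _).1 ?_) ?_)
      · have := Ind.ri_map (Ind.ri_comap ((Ind.ri_bot _).2 hf) K.subtype) π hπ
        rwa [MonoidHom.comap_bot, ker_subtype, Subgroup.map_bot] at this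
      · rw [← map_derivedSeries_eq hπ]
        rintro _ ⟨a, ha, rfl⟩ g -
        obtain ⟨g, rfl⟩ := hπ g
        have h1 := congrArg Subtype.val (DFunLike.congr_fun (MonoidHom.mem_ker.1 g.2)
          ⟨a, map_derivedSeries_le_derivedSeries K.subtype _ ⟨a, ha, rfl⟩⟩)
        rw [← map_mul, ← map_mul]
        exact congrArg π (Subtype.ext (mul_inv_eq_iff_eq_mul.1 h1).symm)
  intro G _ h
  obtain ⟨d, hd⟩ := h.1.solvable
  exact key d G h (by rw [hd]; infer_instance)

end Pool.Agent.MP_6a4325_al.H3
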