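import Pool.Agent.MP_6a4325_al.H62.Base2

/-!
The basis theorem for a normalising unit; group algebras of polycyclic groups are Noetherian.
-/

set_option autoImplicit false

namespace Pool.Agent.MP_6a4325_al.H3

open Pool.Agent.MP_6a4325_al.H62

namespace Skew

variable {S : Type} [Ring S] {R : Subring S} {x : Sˣ}

/-- the polynomials of degree less than `n` -/
def D (R : Subring S) (x : Sˣ) : ℕ → AddSubgroup S
  | 0 => ⊥
  | n + 1 => D R x n ⊔ R.toAddSubgroup.map (AddMonoidHom.mulLeft (x ^ n : Sˣ))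

theorem mem_D {n : ℕ} {y : S} : y ∈ D R x (n + 1) ↔ ∃ r ∈ R, y - (x ^ n : Sˣ) * r ∈ D R x n := by
  rw [D, AddSubgroup.mem_sup]
  constructor
  · rintro ⟨a, ha, _, ⟨r, hr, rfl⟩, rfl⟩
    exact ⟨r, hr, by simpa using ha⟩
  · rintro ⟨r, hr, h⟩
    exact ⟨_, h, _, ⟨r, hr, rfl⟩, sub_add_cancel _ _⟩

theorem D_mono : Monotone (D R x) := monotone_nat_of_le_succ fun _ => le_sup_left

theorem conj (h : ∀ r ∈ R, (x : S) * r * (x⁻¹ : Sˣ) ∈ R) (n : ℕ) :
    ∀ r ∈ R, ((x ^ n : Sˣ) : S) * r * ((x ^ n)⁻¹ : Sˣ) ∈ R := by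
  induction n with
  | zero => simp
  | succ n ih => exact fun r hr => by simpa [pow_succ', mul_assoc] using h _ (ih r hr)

theorem D_x {n : ℕ} {y : S} (h : y ∈ D R x n) : x * y ∈ D R x (n + 1) := by
  induction n generalizing y with
  | zero => rw [AddSubgroup.mem_bot.1 h, mul_zero]; exact zero_mem _
  | succ n ih =>
    obtain ⟨r, hr, h⟩ := mem_D.1 h
    exact mem_D.2 ⟨r, hr, by simpa [pow_succ', mul_sub, mul_assoc] using ih h⟩

theorem D_pow {n : ℕ} {y : S} (h : y ∈ D R x n) (m : ℕ) : (x ^ m : Sˣ) * y ∈ D R x (n + m) := by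
  induction m with
  | zero => simpa using h
  | succ m ih => simpa [pow_succ', mul_assoc, add_assoc] using D_x ih

theorem D_r (h' : ∀ r ∈ R, ((x⁻¹ : Sˣ) : S) * r * x ∈ R) {s : S} (hs : s ∈ R) {n : ℕ} {y : S}
    (h : y ∈ D R x n) : s * y ∈ D R x n := by
  induction n generalizing y with
  | zero => rw [AddSubgroup.mem_bot.1 h, mul_zero]; exact zero_mem _
  | succ n ih =>
    obtain ⟨r, hr, h⟩ := mem_D.1 h
    refine mem_D.2 ⟨_, R.mul_mem (conj (x := x⁻¹) h' n s hs) hr, ?_⟩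
    rw [inv_pow, inv_inv, mul_assoc, mul_assoc, Units.mul_inv_cancel_left, ← mul_sub]
    exact ih h

/-- the ring that is generated by `R` and the unit -/
abbrev T (R : Subring S) (x : Sˣ) : Subring S :=
  Subring.closure ((R : Set S) ∪ {(x : S), ((x⁻¹ : Sˣ) : S)})

theorem le_T : R ≤ T R x := fun _ h => Subring.subset_closure (Or.inl h)

theorem pow_T (n : ℕ) : ((x ^ n : Sˣ) : S) ∈ T R x ∧ (((x ^ n)⁻¹ : Sˣ) : S) ∈ T R x := by
  rw [← inv_pow, Units.val_pow_eq_pow_val, Units.val_pow_eq_pow_val]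
  exact ⟨pow_mem (Subring.subset_closure (by simp)) _, pow_mem (Subring.subset_closure (by simp)) _⟩

theorem cover (h : ∀ r ∈ R, (x : S) * r * (x⁻¹ : Sˣ) ∈ R)
    (h' : ∀ r ∈ R, ((x⁻¹ : Sˣ) : S) * r * x ∈ R) {s : S} (hs : s ∈ T R x) :
    ∀ y : S, (∃ m n : ℕ, (x ^ m : Sˣ) * y ∈ D R x n) →
      ∃ m n : ℕ, (x ^ m : Sˣ) * (s * y) ∈ D R x n := by
  induction hs using Subring.closure_induction with
  | mem s hs =>
    rintro y ⟨m, n, hy⟩
    rcases hs with hs | rfl | rfl
    · exact ⟨m, n, by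
        simpa only [mul_assoc, Units.inv_mul_cancel_left] using D_r h' (conj h m s hs) hy⟩
    · exact ⟨m, n + 1, by
        simpa [← mul_assoc, ← pow_succ, ← pow_succ'] using D_x hy⟩
    · exact ⟨m + 1, n, by simpa [pow_succ, mul_assoc] using hy⟩
  | zero => exact fun y _ => ⟨0, 0, by simp⟩
  | one => simp
  | add a b _ _ ha hb =>
    intro y hy
    obtain ⟨m, n, ha⟩ := ha y hy
    obtain ⟨m', n', hb⟩ := hb y hy
    have h1 := D_mono (show n + m' ≤ n + m' + (n' + m) by omega) (D_pow ha m')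
    have h2 := D_mono (show n' + m ≤ n + m' + (n' + m) by omega) (D_pow hb m)
    rw [← mul_assoc, ← Units.val_mul, ← pow_add] at h1 h2
    exact ⟨m + m', _, by rw [add_mul, mul_add]; exact add_mem (add_comm m m' ▸ h1) h2⟩
  | neg a _ ha => exact fun y hy => by simpa using ha y hy
  | mul a b _ _ ha hb => exact fun y hy => by simpa only [mul_assoc] using ha _ (hb y hy)

/-- the ideal of the leading coefficients -/
def J (h : ∀ r ∈ R, (x : S) * r * (x⁻¹ : Sˣ) ∈ R) (h' : ∀ r ∈ R, ((x⁻¹ : Sˣ) : S) * r * x ∈ R)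
    (I : Ideal (T R x)) (n : ℕ) : Ideal R where
  carrier := {r | ∃ y ∈ I, (y : S) - (x ^ n : Sˣ) * r ∈ D R x n}
  add_mem' := by
    rintro a b ⟨y, hy, ha⟩ ⟨z, hz, hb⟩
    exact ⟨y + z, I.add_mem hy hz, by simpa [mul_add, add_sub_add_comm] using add_mem ha hb⟩
  zero_mem' := ⟨0, I.zero_mem, by simp⟩
  smul_mem' := by
    rintro s a ⟨y, hy, ha⟩
    refine ⟨_, I.mul_mem_left ⟨_, le_T (conj h n s s.2)⟩ hy, ?_⟩
    have := D_r h' (conj h n s s.2) ha
    rwa [mul_sub, mul_assoc _ _ (_ * (a : S)), Units.inv_mul_cancel_left,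
      mul_assoc _ (s : S) (a : S)] at this

variable {h : ∀ r ∈ R, (x : S) * r * (x⁻¹ : Sˣ) ∈ R} {h' : ∀ r ∈ R, ((x⁻¹ : Sˣ) : S) * r * x ∈ R}

theorem J_mono {I I' : Ideal (T R x)} (hI : I ≤ I') {n n' : ℕ} (hn : n ≤ n') :
    J h h' I n ≤ J h h' I' n' := by
  obtain ⟨m, rfl⟩ := Nat.exists_eq_add_of_le hn
  rintro r ⟨y, hy, hr⟩
  refine ⟨_, I'.mul_mem_left ⟨_, (pow_T m).1⟩ (hI hy), ?_⟩
  have := D_pow hr m
  rwa [mul_sub, ← mul_assoc, ← Units.val_mul, ← pow_add, add_comm m] at this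

theorem le_of_J {I I' : Ideal (T R x)} (hI : I ≤ I') (hJ : ∀ n, J h h' I' n ≤ J h h' I n) :
    I' ≤ I := by
  have key : ∀ n, ∀ y ∈ I', (y : S) ∈ D R x n → y ∈ I := fun n => by
    induction n with
    | zero => exact fun y _ hy => (Subtype.ext hy : y = 0) ▸ I.zero_mem
    | succ n ih =>
      intro y hy h1
      obtain ⟨r, hr, h1⟩ := mem_D.1 h1
      obtain ⟨z, hz, h2⟩ := hJ n (show (⟨r, hr⟩ : R) ∈ J h h' I' n from ⟨y, hy, h1⟩)
      simpa using I.add_mem (ih (y - z) (I'.sub_mem hy (hI hz)) (by simpa using sub_mem h1 h2)) hz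
  intro y hy
  obtain ⟨m, n, h1⟩ := cover h h' y.2 1 ⟨0, 1, mem_D.2 ⟨1, R.one_mem, by simp⟩⟩
  rw [mul_one] at h1
  have h2 := I.mul_mem_left ⟨_, (pow_T m).2⟩ (key n _ (I'.mul_mem_left ⟨_, (pow_T m).1⟩ hy) h1)
  rwa [show _ * (_ * y) = y from Subtype.ext (Units.inv_mul_cancel_left (x ^ m) (y : S))] at h2

end Skew

open Skew in
theorem skew : SSkew := by
  intro S _ R x hR h h'
  refine monotone_stabilizes_iff_noetherian.1 fun I => ?_
  have st := monotone_stabilizes_iff_noetherian.2 hR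
  obtain ⟨N, hN⟩ := st ⟨fun n => J h h' (I n) n, fun _ _ e => J_mono (I.mono e) e⟩
  choose K hK using fun n => st ⟨fun k => J h h' (I k) n, fun _ _ e => J_mono (I.mono e) le_rfl⟩
  refine ⟨N + ∑ n ∈ Finset.range N, K n, fun m hm => le_antisymm (I.mono hm)
    (le_of_J (h := h) (h' := h') (I.mono hm) fun n => ?_)⟩
  rcases lt_or_ge n N with hn | hn
  · have h1 : K n ≤ N + ∑ n ∈ Finset.range N, K n := le_add_left
      (Finset.single_le_sum (fun _ _ => Nat.zero_le _) (Finset.mem_range.2 hn))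
    exact ((hK n _ (h1.trans hm)).symm.trans (hK n _ h1)).le
  · exact (J_mono (I.mono le_self_add) le_add_self).trans ((hN (m + n) (by omega)).symm.le.trans
      (J_mono (I.mono le_self_add) hn))

theorem noe : SSkew → PCApi → SNoe := by
  rintro hS - k G _ _ ⟨n, hn⟩
  let o : G →* (MonoidAlgebra k G)ˣ := (MonoidAlgebra.of k G).toHomUnits
  let A : Subgroup G → Subring (MonoidAlgebra k G) := fun L =>
    Subring.closure (Set.range (algebraMap k _) ∪ (fun g => (o g : MonoidAlgebra k G)) '' L)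
  have mo : ∀ {L : Subgroup G} {g}, g ∈ L → (o g : MonoidAlgebra k G) ∈ A L := fun hg =>
    Subring.subset_closure (Or.inr ⟨_, hg, rfl⟩)
  have mk : ∀ (L : Subgroup G) (c : k), algebraMap k _ c ∈ A L := fun _ c =>
    Subring.subset_closure (Or.inl ⟨c, rfl⟩)
  have cj : ∀ (K : Subgroup G) (t : G), (∀ g ∈ K, t * g * t⁻¹ ∈ K) → ∀ r ∈ A K,
      (o t : MonoidAlgebra k G) * r * ((o t)⁻¹ : (MonoidAlgebra k G)ˣ) ∈ A K := by
    intro K t ht r hr
    induction hr using Subring.closure_induction with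
    | mem s hs =>
      rcases hs with ⟨c, rfl⟩ | ⟨g, hg, rfl⟩
      · rw [← Algebra.commutes, Units.mul_inv_cancel_right]; exact mk K c
      · simpa only [map_mul, map_inv, Units.val_mul] using mo (ht g hg)
    | zero => simp
    | one => simp
    | add a b _ _ ha hb => rw [mul_add, add_mul]; exact add_mem ha hb
    | neg a _ ha => rw [mul_neg, neg_mul]; exact neg_mem ha
    | mul a b _ _ ha hb =>
      simpa only [mul_assoc, Units.inv_mul_cancel_left] using mul_mem ha hb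
  have step : ∀ K K' : Subgroup G, Cyc K K' → IsNoetherianRing (A K) → IsNoetherianRing (A K') := by
    rintro K K' ⟨h1, h2, t, ht, h3⟩ hK
    have := hS _ (A K) (o t) hK (cj K t (h2 t ht))
      (by simpa only [map_inv, inv_inv] using cj K t⁻¹ (h2 _ (K'.inv_mem ht)))
    let U : Subgroup G :=
      { carrier := {g | ↑(o g) ∈ Skew.T (A K) (o t) ∧ ↑(o g⁻¹) ∈ Skew.T (A K) (o t)}
        mul_mem' := fun ha hb => by
          simpa only [Set.mem_ofPred_eq, mul_inv_rev, map_mul, Units.val_mul] using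
            And.intro (mul_mem ha.1 hb.1) (mul_mem hb.2 ha.2)
        one_mem' := by simp
        inv_mem' := fun ha => ⟨ha.2, by simpa only [inv_inv] using ha.1⟩ }
    have h4 : K' ≤ U := h3 ▸ sup_le (fun g hg => ⟨Skew.le_T (mo hg), Skew.le_T (mo (K.inv_mem hg))⟩)
      (Subgroup.zpowers_le.2 ⟨Subring.subset_closure (Or.inr (Or.inl rfl)),
        Subring.subset_closure (Or.inr (Or.inr (by rw [map_inv]; rfl)))⟩)
    have h5 : Skew.T (A K) (o t) = A K' := le_antisymm (Subring.closure_le.2 (by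
      rintro _ (hs | rfl | rfl)
      · exact Subring.closure_mono (Set.union_subset_union_right _ (Set.image_mono h1)) hs
      · exact mo ht
      · rw [← map_inv]; exact mo (K'.inv_mem ht))) (Subring.closure_le.2 (by
      rintro _ (⟨c, rfl⟩ | ⟨g, hg, rfl⟩)
      exacts [Skew.le_T (mk K c), (h4 hg).1]))
    exact h5 ▸ this
  have ind : ∀ (n : ℕ) (H L : Subgroup G), PCr n H L → IsNoetherianRing (A H) →
      IsNoetherianRing (A L) := by
    intro n H L h hH
    induction h with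
    | refl => exact hH
    | fin _ hc _ ih => exact step _ _ hc (ih hH)
    | inf _ hc ih => exact step _ _ hc (ih hH)
  have h0 : A ⊥ = (algebraMap k _).range := le_antisymm (Subring.closure_le.2 (by
    rintro _ (hs | ⟨g, rfl, rfl⟩)
    exacts [hs, ⟨1, by simp only [map_one, Units.val_one]⟩])) (by rintro _ ⟨c, rfl⟩; exact mk _ c)
  have h1 : A ⊤ = ⊤ := eq_top_iff.2 fun y _ => by
    induction y using MonoidAlgebra.induction_linear with
    | zero => exact zero_mem _
    | add a b ha hb => exact add_mem (ha trivial) (hb trivial)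
    | single g c =>
      simpa [o, MonoidAlgebra.single_mul_single] using mul_mem (mk ⊤ c) (mo (Subgroup.mem_top g))
  have := ind n _ _ hn (h0 ▸ isNoetherianRing_range _)
  rw [h1] at this
  exact isNoetherianRing_of_ringEquiv _ Subring.topEquiv

end Pool.Agent.MP_6a4325_al.H3
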